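import Pool.Agent.Lib.MP_b5021c_nt.IfaceS4a

/-!
# Board b5, row U_NV3 (helper20)
-/

namespace Pool.Agent.B5.H20

open Pool.Agent.B5

theorem s3' : (1732 : ℝ) / 1000 < Real.sqrt 3 ∧ Real.sqrt 3 < 1733 / 1000 := by
  have h : Real.sqrt 3 ^ 2 = 3 := Real.sq_sqrt (by norm_num)
  have h0 : 0 ≤ Real.sqrt 3 := Real.sqrt_nonneg 3
  constructor <;> nlinarith

theorem pow_le_prod {m : ℕ} (N' : Fin m → ℝ) (h : ∀ i, Real.sqrt 3 ≤ N' i) :
    Real.sqrt 3 ^ m ≤ ∏ i, N' i := by
  have h1 : ∏ i : Fin m, Real.sqrt 3 ≤ ∏ i, N' i :=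
    Finset.prod_le_prod (fun i _ => Real.sqrt_nonneg 3) fun i _ => h i
  rwa [Finset.prod_const, Finset.card_univ, Fintype.card_fin] at h1

theorem nv3 (hs : Su3S) : Nv3S := by
  intro N m N' l hN hN' hl
  have h3 := s3'
  set p := ∏ i, N' i with hp
  have hl0 : (0 : ℝ) ≤ l := Nat.cast_nonneg l
  have hpm : Real.sqrt 3 ^ m ≤ p := pow_le_prod N' hN'
  -- division by `p`
  have key : 0 < p → ∀ y : ℝ, y * p + 2 * N + 2 * p ^ 2 ≤ 2 * N * p →
      y + l + 2 * p ≤ 2 * N := by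
    intro h0 y hy
    have h : (y + l + 2 * p) * p ≤ (2 * N) * p := by nlinarith
    exact le_of_mul_le_mul_right h h0
  rcases Nat.eq_zero_or_pos m with hm | hm
  · subst hm
    have hp1 : p = 1 := by rw [hp]; simp
    have hS : ∑ i : Fin 0, bV3 (N' i) = 0 := by simp
    rw [hS]
    rw [hp1] at hl
    exact ⟨fun _ _ => by linarith, fun _ => by linarith⟩
  have hsum := hs m N' hm hN'
  rw [← hp] at hsum
  have hp3 : Real.sqrt 3 ≤ p := by
    have h1 : Real.sqrt 3 ^ 1 ≤ Real.sqrt 3 ^ m :=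
      pow_le_pow_right₀ (by linarith [h3.1]) hm
    rw [pow_one] at h1
    linarith
  have hp17 : (17 : ℝ) / 10 ≤ p := by linarith [h3.1]
  have hp0 : 0 < p := by linarith
  have hb : bV3 p ≤ 2 * p + 4800 := by
    have h1 : bV3 p ≤ 2 * max 1 p + 4800 := min_le_right _ _
    rwa [max_eq_right (by linarith)] at h1
  have hm1 : (1 : ℝ) ≤ m := by exact_mod_cast hm
  constructor
  · intro h1 h2
    rcases Nat.lt_or_ge m 2 with hm2 | hm2
    · obtain rfl : m = 1 := by omega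
      have h4 : 2 * p ^ 2 ≤ N ^ 2 := h2 rfl
      have h5 : p ≤ 7072 / 10000 * N := by
        by_contra hcon
        push Not at hcon
        nlinarith
      have h6 := mul_nonneg (sub_nonneg.mpr hp17) (sub_nonneg.mpr h5)
      have h7 := key hp0 2 (by nlinarith)
      linarith
    · have h4 : (3 : ℝ) ≤ p := by
        have h5 : Real.sqrt 3 ^ 2 ≤ Real.sqrt 3 ^ m :=
          pow_le_pow_right₀ (by linarith [h3.1]) hm2
        rw [Real.sq_sqrt (by norm_num)] at h5
        linarith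
      have hm3 : (2 : ℝ) ≤ m := by exact_mod_cast hm2
      have h6 := mul_nonneg (sub_nonneg.mpr h4) (sub_nonneg.mpr h1)
      have h7 := key hp0 (-2) (by nlinarith)
      linarith
  · intro h1
    have h6 := mul_nonneg (sub_nonneg.mpr hp17) (sub_nonneg.mpr h1)
    have h7 := key hp0 12 (by nlinarith)
    linarith

end Pool.Agent.B5.H20
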