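import Pool.Agent.Lib.MP_b5021c_nt.IfaceE2
import Pool.Agent.Lib.MP_b5021c_nt.B.H24.B5u
import Pool.Agent.Lib.MP_b5021c_nt.B.H71.I2c

/-!
# Board b5, row E2_TPX (helper20): the polynomial remainder `R`
-/

namespace Pool.Agent.B5.H20

open scoped LaurentPolynomial
open Pool.Agent.B5
open Pool.Agent.B5.H71 (em)

section

variable {O : Type} [CommRing O] [IsDomain O] [IsPrincipalIdealRing O] [Coef O] {L : Type}
  [AddCommGroup L] [Module.Free ℤ L] [Module.Finite ℤ L]

/-- `1 - e⁻¹ w^b ≠ 0` for `b ≠ 0`. -/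
theorem sfa_ne {K : Type} [AddCommGroup K] (b : K) (e : RO O) (hb : b ≠ 0) :
    (1 - AddMonoidAlgebra.single b e : AO O K) ≠ 0 := by
  intro h
  have h1 := congrArg (fun F : AO O K => F.coeff 0) h
  simp only [AddMonoidAlgebra.coeff_sub, Finsupp.coe_sub, Pi.sub_apply, AddMonoidAlgebra.one_def,
    AddMonoidAlgebra.coeff_single, Finsupp.single_eq_same, AddMonoidAlgebra.coeff_zero,
    Finsupp.coe_zero, Pi.zero_apply] at h1
  rw [Finsupp.single_eq_of_ne (Ne.symm hb), sub_zero] at h1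
  exact one_ne_zero h1

/-- `x⁻¹ = e w^(-b)`. -/
noncomputable def xinv (b : L) (e : (RO O)ˣ) : AO O L := AddMonoidAlgebra.single (-b) (e : RO O)

theorem xinv_mul (b : L) (e : (RO O)ˣ) :
    xinv b e * AddMonoidAlgebra.single b ((e⁻¹ : (RO O)ˣ) : RO O) = 1 := by
  rw [xinv, AddMonoidAlgebra.single_mul_single, neg_add_cancel, Units.mul_inv]
  rfl

theorem rsh_inv (e : (RO O)ˣ) : rsh ((e⁻¹ : (RO O)ˣ) : RO O) = (e : RO O) := by
  have h1 := H24.rsh_unit (e⁻¹)
  have h2 : ((e⁻¹ : (RO O)ˣ) : RO O) * (e : RO O) = 1 := Units.inv_mul e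
  have h3 : (e : RO O) * ((e⁻¹ : (RO O)ˣ) : RO O) = 1 := Units.mul_inv e
  calc rsh ((e⁻¹ : (RO O)ˣ) : RO O)
      = rsh ((e⁻¹ : (RO O)ˣ) : RO O) * (((e⁻¹ : (RO O)ˣ) : RO O) * (e : RO O)) := by
        rw [h2, mul_one]
    _ = (rsh ((e⁻¹ : (RO O)ˣ) : RO O) * ((e⁻¹ : (RO O)ˣ) : RO O)) * (e : RO O) := by ring
    _ = e := by rw [h1, one_mul]

/-- `(1 - x)^# = - x⁻¹ (1 - x)`. -/
theorem sharp_sfa (b : L) (e : (RO O)ˣ) : sharp (sfa b e) = -xinv b e * sfa b e := by
  have h := xinv_mul b e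
  rw [sfa, map_sub, map_one, H71.sharp_single, rsh_inv]
  change 1 - xinv b e = -xinv b e * (1 - AddMonoidAlgebra.single b ((e⁻¹ : (RO O)ˣ) : RO O))
  linear_combination -h

theorem sharp_cst' (c : RO O) : sharp (cst c : AO O L) = cst (rsh c) := by
  rw [cst, H71.sharp_single, neg_zero]; rfl

/-- Divisibility by the product of the factors. -/
theorem prod_dvd {n : ℕ} (b : Fin n → L) (f : Fin n → (L →+ ℤ)) (e : Fin n → (RO O)ˣ)
    (hd : ∀ i j, f i (b j) = if i = j then 1 else 0) (E : AO O L)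
    (hE : ∀ (i : Fin n) (h : f i (b i) = 1), cl (f i) (b i) h (e i) E = 0) (s : Finset (Fin n)) :
    ∃ R : AO O L, E = (∏ j ∈ s, sfa (b j) (e j)) * R := by
  classical
  induction s using Finset.induction_on with
  | empty => exact ⟨E, by simp⟩
  | insert i s hi ih =>
    obtain ⟨R, hR⟩ := ih
    have h1 : f i (b i) = 1 := by rw [hd, if_pos rfl]
    have h2 := hE i h1
    rw [hR, map_mul, map_prod] at h2
    have h3 : ∏ j ∈ s, cl (f i) (b i) h1 (e i) (sfa (b j) (e j)) ≠ 0 := by
      rw [Finset.prod_ne_zero_iff]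
      intro j hj
      have hij : i ≠ j := fun h => hi (h ▸ hj)
      have h4 : f i (b j) = 0 := by rw [hd, if_neg hij]
      rw [sfa, map_sub, map_one, cl_single]
      apply sfa_ne
      intro h5
      have h6 := congrArg (fun a : Ker (f i) => (a : L)) h5
      simp only [prj_coe, h4, zero_smul, sub_zero] at h6
      have h7 : f j (b j) = 1 := by rw [hd, if_pos rfl]
      rw [h6] at h7
      simp at h7
    have h4 := (mul_eq_zero.mp h2).resolve_left h3
    have h5 := H71.cl_dvd (f i) (b i) h1 (e i) R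
    rw [h4, map_zero, sub_zero] at h5
    obtain ⟨R', hR'⟩ := h5
    refine ⟨R', ?_⟩
    rw [hR, Finset.prod_insert hi, hR', sfa]
    ring

end

/-- Row E2_TPX. -/
theorem tpx : TpxS := by
  classical
  intro O _ _ _ _ L _ _ _ r lam B c n b f e q hT hRes hRec
  set Pi : AO O L := ∏ j, sfa (b j) (e j) with hPi
  set S : AO O L := ∑ i, em (Ker (f i)) (q i) * ∏ j ∈ Finset.univ.erase i, sfa (b j) (e j)
    with hS
  have hfi : ∀ i, f i (b i) = 1 := fun i => by rw [hT.dual, if_pos rfl]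
  -- the remainder is closed to zero
  have hE : ∀ (i : Fin n) (h : f i (b i) = 1), cl (f i) (b i) h (e i) (B - S) = 0 := by
    intro i h
    rw [map_sub, hRes i h, hS, map_sum, Finset.sum_eq_single i]
    · rw [map_mul, H71.cl_em, map_prod, sub_self]
    · intro j _ hji
      rw [map_mul, map_prod]
      have h1 : i ∈ Finset.univ.erase j :=
        Finset.mem_erase.mpr ⟨Ne.symm hji, Finset.mem_univ _⟩
      rw [Finset.prod_eq_zero h1, mul_zero]
      exact H71.cl_factor (f i) (b i) h (e i)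
    · intro h1; exact absurd (Finset.mem_univ i) h1
  obtain ⟨R, hR⟩ := prod_dvd b f e hT.dual (B - S) hE Finset.univ
  have hB : B = S + Pi * R := by rw [← hR]; ring
  refine ⟨R, hB, ?_⟩
  -- the product is not zero
  have hbi : ∀ i, b i ≠ 0 := by
    intro i h
    have := hfi i
    rw [h, map_zero] at this
    exact zero_ne_one this
  have hPi0 : Pi ≠ 0 := by
    rw [hPi, Finset.prod_ne_zero_iff]
    intro j _
    exact sfa_ne _ _ (hbi j)
  -- `Pi^# = kap Pi`
  set kap : AO O L := ∏ j, -xinv (b j) (e j) with hkap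
  have hPs : sharp Pi = kap * Pi := by
    rw [hPi, map_prod, hkap, ← Finset.prod_mul_distrib]
    exact Finset.prod_congr rfl fun j _ => sharp_sfa _ _
  have hxu : ∀ j, -xinv (b j) (e j) ≠ 0 := by
    intro j h
    have h1 := xinv_mul (b j) (e j)
    rw [neg_eq_zero.mp h, zero_mul] at h1
    exact zero_ne_one h1
  have hkap0 : kap ≠ 0 := by
    rw [hkap, Finset.prod_ne_zero_iff]
    exact fun j _ => hxu j
  -- `kap_i = kap (- x_i)`
  have hki : ∀ i, ∏ j ∈ Finset.univ.erase i, -xinv (b j) (e j) =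
      kap * -AddMonoidAlgebra.single (b i) (((e i)⁻¹ : (RO O)ˣ) : RO O) := by
    intro i
    have h1 := Finset.mul_prod_erase Finset.univ (fun j => -xinv (b j) (e j)) (Finset.mem_univ i)
    rw [hkap, ← h1]
    have h2 := xinv_mul (b i) (e i)
    calc ∏ j ∈ Finset.univ.erase i, -xinv (b j) (e j)
        = (xinv (b i) (e i) * AddMonoidAlgebra.single (b i) (((e i)⁻¹ : (RO O)ˣ) : RO O)) *
          ∏ j ∈ Finset.univ.erase i, -xinv (b j) (e j) := by rw [h2, one_mul]
      _ = _ := by ring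
  -- the sum
  set Q : AO O L := ∑ i, em (Ker (f i)) (q i) with hQ
  have hSs : S * cst (rsh c) * kap + sharp S * cst c = kap * cst (rsh c) * (Q * Pi) := by
    rw [hS, hQ, map_sum, Finset.sum_mul, Finset.sum_mul, Finset.sum_mul, Finset.sum_mul,
      Finset.mul_sum, ← Finset.sum_add_distrib]
    refine Finset.sum_congr rfl fun i _ => ?_
    rw [map_mul, map_prod]
    have h1 : ∏ j ∈ Finset.univ.erase i, sharp (sfa (b j) (e j)) =
        (kap * -AddMonoidAlgebra.single (b i) (((e i)⁻¹ : (RO O)ˣ) : RO O)) *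
          ∏ j ∈ Finset.univ.erase i, sfa (b j) (e j) := by
      rw [← hki i, ← Finset.prod_mul_distrib]
      exact Finset.prod_congr rfl fun j _ => sharp_sfa _ _
    have h2 : sharp (em (Ker (f i)) (q i)) * cst c = em (Ker (f i)) (q i) * cst (rsh c) := by
      have h3 := congrArg (em (Ker (f i))) (hRec i)
      rw [map_mul, map_mul, H71.em_cst, H71.em_cst, ← H71.sharp_em] at h3
      exact h3.symm
    have h4 : Pi = sfa (b i) (e i) * ∏ j ∈ Finset.univ.erase i, sfa (b j) (e j) := by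
      rw [hPi, Finset.mul_prod_erase Finset.univ (fun j => sfa (b j) (e j)) (Finset.mem_univ i)]
    rw [h1, h4]
    set P' : AO O L := ∏ j ∈ Finset.univ.erase i, sfa (b j) (e j)
    set x : AO O L := AddMonoidAlgebra.single (b i) (((e i)⁻¹ : (RO O)ˣ) : RO O) with hx
    have h5 : sfa (b i) (e i) = 1 - x := rfl
    rw [h5]
    calc em (Ker (f i)) (q i) * P' * cst (rsh c) * kap +
          sharp (em (Ker (f i)) (q i)) * (kap * -x * P') * cst c
        = em (Ker (f i)) (q i) * P' * cst (rsh c) * kap +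
          (sharp (em (Ker (f i)) (q i)) * cst c) * (kap * -x * P') := by ring
      _ = _ := by rw [h2]; ring
  -- unitarity
  have hun := hT.un
  have hden : den c b e = cst c * Pi := rfl
  rw [hden, map_mul, sharp_cst', hPs, hB, map_add, map_mul, hPs] at hun
  have h1 : (kap * Pi * Pi) * (Q * cst (rsh c) + R * cst (rsh c) + sharp R * cst c) =
      (kap * Pi * Pi) * ((r : AO O L) * cst (c * rsh c)) := by
    have h2 : (S * cst (rsh c) * kap + sharp S * cst c) * Pi =
        kap * cst (rsh c) * (Q * Pi) * Pi := by rw [hSs]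
    rw [H71.cst_mul]
    linear_combination hun - h2
  exact mul_left_cancel₀ (mul_ne_zero (mul_ne_zero hkap0 hPi0) hPi0) h1

end Pool.Agent.B5.H20
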