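import Pool.Agent.Lib.MP_b5021c_nt.IfaceE0
import Pool.Agent.Lib.MP_b5021c_nt.B.H59.Cst

/-!
# Board b5, row E0_CPL (helper20): completion at a facet
-/

namespace Pool.Agent.B5.H20

open scoped LaurentPolynomial
open Pool.Agent.B5

/-- The new marking `(x, k) ↦ (phi x + k, k)`. -/
def phC {P : Type} {L : Type} [AddCommGroup L] (phi : L →+ (P → ℤ)) (lam : L →+ ℤ) :
    (Ker lam × ℤ) →+ (Option P → ℤ) where
  toFun x := fun o => o.elim x.2 (fun j => phi (x.1 : L) j + x.2)
  map_zero' := by
    funext o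
    rcases o with _ | j
    · rfl
    · simp
  map_add' x y := by
    funext o
    rcases o with _ | j
    · rfl
    · simp only [Option.elim, Prod.fst_add, Prod.snd_add, Submodule.coe_add, map_add, Pi.add_apply]
      ring

theorem cpl (h2 : FacetS) (h3 : ComplIrrS) (h4 : ComplS) (h5 : RkS) : CplS := by
  classical
  intro O _ _ _ _ P L _ _ _ _ _ phi D lam hD htwo hfac hcls
  obtain ⟨hl0, hnn, hrk⟩ := hfac
  have hWD : WD phi ∅ Finset.univ D := by
    refine ⟨hD.inj, Finset.disjoint_empty_left _, fun a ha => ⟨fun j _ => hD.bin a ha j, ?_, ?_⟩,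
      hD.st, hD.un, hD.irr, hD.spn⟩
    · left; intro i hi; exact absurd hi (Finset.notMem_empty i)
    · intro j _ hj; exact absurd (Finset.mem_univ j) hj
  have hNn : Nn lam D := fun a ha => hnn a (Finsupp.mem_support_iff.mp ha)
  obtain ⟨c, B, hc, hcB, hBp, hBs, hcop, hBw, hBr, hBc⟩ :=
    h2 O P L phi ∅ Finset.univ D lam hWD hNn hl0 hrk htwo hcls
  obtain ⟨c1, c2, c3, c4, c5⟩ := h4 O (Ker lam) B hBs
  have hB0 : B ≠ 0 := by
    rintro rfl
    exact hBs.1 rfl
  have hirr := h3 O (Ker lam) B hB0 hcop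
  have hk1 : Module.finrank ℤ (Ker lam) + 1 = Module.finrank ℤ L := (h5 L L).1 lam hl0
  have hk2 : Module.finrank ℤ (Ker lam × ℤ) = Module.finrank ℤ (Ker lam) + 1 :=
    (h5 (Ker lam) L).2.2.2.2.2.2.2.2.2
  -- exponents of `B`
  have hsB : ∀ x : Ker lam, x ∈ supp B ↔ (x : L) ∈ supp D := by
    intro x
    have h6 : D.coeff (x : L) = c * B.coeff x := by
      have h7 := congrArg (fun G : AO O (Ker lam) => G.coeff x) hcB
      simp only [res_coeff] at h7
      rw [h7, cst, AddMonoidAlgebra.coeff_single_zero_mul]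
    change B.coeff x ≠ 0 ↔ D.coeff (x : L) ≠ 0
    rw [h6]
    exact ⟨fun h => mul_ne_zero hc h, fun h => right_ne_zero_of_mul h⟩
  refine ⟨Option P, Ker lam × ℤ, inferInstance, inferInstance, inferInstance, inferInstance,
    inferInstance, phC phi lam, compl B, ⟨?_, ?_, c1, c2, hirr, ?_⟩, by rw [hk2, hk1], ?_, ?_⟩
  · -- injective
    rw [injective_iff_map_eq_zero]
    rintro ⟨a, k⟩ hx
    have hk : k = 0 := congrFun hx none
    subst hk
    have ha : (a : L) = 0 := by
      apply hD.inj
      rw [map_zero]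
      funext j
      have h6 : phi (a : L) j + 0 = 0 := congrFun hx (some j)
      rw [add_zero] at h6
      exact h6
    have ha' : a = 0 := Subtype.ext ha
    rw [ha']; rfl
  · -- binary
    intro x hx o
    rcases o with _ | j
    · change x.2 = 0 ∨ x.2 = 1
      rcases c4 x hx with h | h
      · exact Or.inl h.1
      · exact Or.inr h.1
    · change phi (x.1 : L) j + x.2 = 0 ∨ phi (x.1 : L) j + x.2 = 1
      rcases c4 x hx with h | h
      · rw [h.1, add_zero]
        exact hD.bin _ ((hsB _).mp h.2) j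
      · rw [h.1]
        have h6 := hD.bin _ ((hsB _).mp h.2) j
        have e1 : phi ((-x.1 : Ker lam) : L) j = -phi (x.1 : L) j := by
          rw [Submodule.coe_neg, map_neg, Pi.neg_apply]
        rw [e1] at h6
        omega
  · rw [c5, hBr, hk2, hk1]
  · rw [c3]; exact hBc
  · -- the number of exponents
    have hfin : (supp B).Finite := by
      refine (B.coeff.support.finite_toSet).subset fun x hx => ?_
      exact Finsupp.mem_support_iff.mpr hx
    have hE : supp (compl B) = (fun x : Ker lam => (x, (0 : ℤ))) '' supp B ∪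
        (fun x : Ker lam => (-x, (1 : ℤ))) '' supp B := by
      ext x
      rw [H59.supp_compl]
      constructor
      · rintro (h | h)
        · left
          exact ⟨x.1, h.2, Prod.ext rfl h.1.symm⟩
        · right
          exact ⟨-x.1, h.2, Prod.ext (neg_neg x.1) h.1.symm⟩
      · rintro (⟨y, hy, rfl⟩ | ⟨y, hy, rfl⟩)
        · exact Or.inl ⟨rfl, hy⟩
        · refine Or.inr ⟨rfl, ?_⟩
          change - -y ∈ supp B
          rw [neg_neg]; exact hy
    have hF : {a | a ∈ supp D ∧ lam a = 0} = (fun x : Ker lam => (x : L)) '' supp B := by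
      ext a
      constructor
      · rintro ⟨h, h'⟩
        exact ⟨⟨a, h'⟩, (hsB ⟨a, h'⟩).mpr h, rfl⟩
      · rintro ⟨x, hx, rfl⟩
        exact ⟨(hsB x).mp hx, x.2⟩
    rw [hE, hF, Set.ncard_union_eq ?_ (hfin.image _) (hfin.image _),
      Set.ncard_image_of_injective _ ?_, Set.ncard_image_of_injective _ ?_,
      Set.ncard_image_of_injective _ Subtype.coe_injective]
    · ring
    · intro x y h
      exact neg_injective (congrArg Prod.fst h)
    · intro x y h
      exact congrArg Prod.fst h
    · rw [Set.disjoint_left]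
      rintro _ ⟨x, -, rfl⟩ ⟨y, -, h⟩
      exact absurd (congrArg Prod.snd h) one_ne_zero

end Pool.Agent.B5.H20
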