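import Pool.Agent.Lib.MP_b5021c_nt.IfaceE3
import Pool.Agent.Lib.MP_b5021c_nt.B.H70.Mm
import Pool.Agent.Lib.MP_b5021c_nt.B.H49.Drb

/-!
# Board b5, row E3_DV (helper20): `g` divides `q`
-/

namespace Pool.Agent.B5.H20

open scoped LaurentPolynomial
open Polynomial Pool.Agent.B5

section Content

variable {O : Type} [CommRing O] [IsDomain O] [IsPrincipalIdealRing O] {L : Type} [AddCommGroup L]

/-- The greatest common divisor of `g` and the coefficients of `q`. -/
theorem content (q : AO O L) (g : RO O) : ∃ (d g1 : RO O) (q1 : AO O L), g = d * g1 ∧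
    q = cst d * q1 ∧ ∀ c : RO O, c ∣ g1 → (∀ a, c ∣ q1.coeff a) → IsUnit c := by
  classical
  let _ : StrongNormalizationMonoid (RO O) := UniqueFactorizationMonoid.strongNormalizationMonoid
  let _ : StrongNormalizedGCDMonoid (RO O) :=
    UniqueFactorizationMonoid.toStrongNormalizedGCDMonoid (RO O)
  set f : Option L → RO O := fun o => o.elim g (fun a => q.coeff a) with hf
  set s : Finset (Option L) := Finset.insertNone q.coeff.support with hs
  obtain ⟨g', h1, h2⟩ := Finset.extract_gcd f (s := s) ⟨none, by simp [hs]⟩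
  set d := s.gcd f with hd
  refine ⟨d, g' none, ∑ a ∈ q.coeff.support, AddMonoidAlgebra.single a (g' (some a)), ?_, ?_, ?_⟩
  · exact h1 none (by simp [hs])
  · rw [Finset.mul_sum]
    have h3 : q = ∑ a ∈ q.coeff.support, AddMonoidAlgebra.single a (q.coeff a) := by
      conv_lhs => rw [← AddMonoidAlgebra.sum_coeff_single q]
      rfl
    conv_lhs => rw [h3]
    refine Finset.sum_congr rfl fun a ha => ?_
    have h4 : q.coeff a = d * g' (some a) := h1 (some a) (by simpa [hs] using ha)
    rw [h4, cst, AddMonoidAlgebra.single_mul_single, zero_add]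
  · intro c hc1 hc2
    have h5 : c ∣ s.gcd g' := by
      refine Finset.dvd_gcd fun b hb => ?_
      rcases b with _ | a
      · exact hc1
      · have ha : a ∈ q.coeff.support := by simpa [hs] using hb
        have h6 := hc2 a
        have h7 : (∑ b ∈ q.coeff.support, AddMonoidAlgebra.single b (g' (some b)) : AO O L).coeff a
            = g' (some a) := by
          rw [AddMonoidAlgebra.coeff_sum, Finset.sum_apply']
          rw [Finset.sum_eq_single a]
          · simp
          · intro b _ hba
            simp [AddMonoidAlgebra.coeff_single, hba]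
          · intro h; exact absurd ha h
        rwa [h7] at h6
    rw [h2] at h5
    exact isUnit_of_dvd_one h5

end Content

section Main

variable {O : Type} [CommRing O] [IsDomain O] [IsPrincipalIdealRing O] [Coef O] {L : Type}
  [AddCommGroup L] [Module.Free ℤ L] [Module.Finite ℤ L]

theorem ev_cst_mul (z : Circle) (u : AddChar L Circle) (c : RO O) (G : AO O L) :
    ev z u (cst c * G) = evR z c * ev z u G := by
  rw [map_mul, cst, H71.ev_single, AddChar.map_zero_eq_one]
  simp

/-- A closed property which holds outside the zeros of a non-zero element. -/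
theorem of_dense (zf : ZfinS) (p : RO O) (hp : p ≠ 0) (Q : Circle → Prop)
    (hQ : IsClosed {z | Q z}) (h : ∀ z, evR z p ≠ 0 → Q z) : ∀ z, Q z := by
  have h1 := H49.dense_compl_finite _ (zf O p hp)
  have h2 : {z : Circle | evR z p = 0}ᶜ ⊆ {z | Q z} := fun z hz => h z hz
  have h3 := (h1.mono h2).closure_eq
  rw [hQ.closure_eq] at h3
  intro z
  have : z ∈ {z | Q z} := by rw [h3]; trivial
  exact this

theorem continuous_ev (er : EvRS) (u : AddChar L Circle) (G : AO O L) :
    Continuous fun z : Circle => ev z u G := by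
  induction G using AddMonoidAlgebra.induction_linear with
  | zero => simp only [map_zero]; exact continuous_const
  | add f g hf hg => simp only [map_add]; exact hf.add hg
  | single a q =>
    simp only [H71.ev_single]
    exact ((er O).2.2.2 q).mul continuous_const

/-- The main statement for an arbitrary lattice. -/
theorem dvMain (nn : Nn3S) (ke : KerEvS) (m1 : M1S) (mm : MmulS) (db : Db3S) (er : EvRS)
    (zf : ZfinS) (q : AO O L) (g U : RO O) (hq : q ≠ 0) (hg : g ≠ 0) (hM : M g = 1)
    (hrq : q * cst (rsh g) = sharp q * cst g) (hN : NnT (q * cst (rsh g)))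
    (m : ℤ) (v : O[X]) (hv : g * U = LaurentPolynomial.T m * toLaurent v)
    (hd : ∀ z0 : ℂ, ‖z0‖ = 1 → ¬ (X - C z0) ^ 2 ∣ v.map Coef.emb) :
    ∃ F : AO O L, q = cst g * F ∧ NnT F := by
  obtain ⟨d, g1, q1, e1, e2, hc⟩ := content q g
  have hd0 : d ≠ 0 := by rintro rfl; rw [zero_mul] at e1; exact hg e1
  have hg1 : g1 ≠ 0 := by rintro rfl; rw [mul_zero] at e1; exact hg e1
  have hq1 : q1 ≠ 0 := by rintro rfl; rw [mul_zero] at e2; exact hq e2
  have erN := (er O).2.2.1
  -- `M g1 = 1`
  have hM1 : M g1 = 1 := by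
    have h1 := (mm O).1 d g1 hd0 hg1
    rw [← e1, hM] at h1
    have h2 := (mm O).2.1 d
    have h3 := (mm O).2.1 g1
    nlinarith
  -- the element `H`
  set H : AO O L := cst (rsh g1) * q1 with hH
  have hevH : ∀ z u, ev z u H = (starRingEnd ℂ) (evR z g1) * ev z u q1 := by
    intro z u; rw [hH, ev_cst_mul, erN]
  have hHN : NnT H := by
    intro z u
    refine of_dense zf d hd0
      (fun z => (ev z u H).im = 0 ∧ 0 ≤ (ev z u H).re) ?_ ?_ z
    · have hcont := continuous_ev er u H
      exact (isClosed_eq (Complex.continuous_im.comp hcont) continuous_const).inter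
        (isClosed_le continuous_const (Complex.continuous_re.comp hcont))
    · intro z hz
      have h1 := hN z u
      have h2 : ev z u (q * cst (rsh g)) = ((‖evR z d‖ ^ 2 : ℝ) : ℂ) * ev z u H := by
        rw [mul_comm q, ev_cst_mul, erN, hevH]
        conv_lhs => rw [e2, ev_cst_mul, e1, map_mul, map_mul]
        have h3 : (starRingEnd ℂ) (evR z d) * evR z d = ((‖evR z d‖ ^ 2 : ℝ) : ℂ) := by
          rw [mul_comm, Complex.mul_conj, Complex.normSq_eq_norm_sq]
        rw [← h3]; ring
      rw [h2, Complex.im_ofReal_mul, Complex.re_ofReal_mul] at h1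
      have h4 : 0 < ‖evR z d‖ ^ 2 := by positivity
      constructor
      · exact (mul_eq_zero.mp h1.1).resolve_left h4.ne'
      · exact nonneg_of_mul_nonneg_right h1.2 h4
  -- coefficients
  have hcoefH : ∀ a, H.coeff a = rsh g1 * q1.coeff a := by
    intro a; rw [hH, H71.cst_mul_coeff]
  have hcoef : ∀ (z : Circle) (a : L), ‖evR z g1‖ * ‖evR z (q1.coeff a)‖ ≤
      ‖evR z g1‖ * ‖evR z (q1.coeff 0)‖ := by
    intro z a
    by_cases ha : a = 0
    · rw [ha]
    have h1 : ‖(spec z H).coeff a‖ ≤ ((spec z H).coeff 0).re := by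
      by_cases hp : spec z H = 0
      · rw [hp]; simp
      · exact ((nn L (spec z H) hp (fun u => hHN z u)).2 a ha).le
    have h2 := h1.trans (Complex.re_le_norm _)
    rw [spec_coeff, spec_coeff, hcoefH, hcoefH, map_mul, map_mul, norm_mul, norm_mul, erN,
      RCLike.norm_conj] at h2
    exact h2
  have hcoef2 : ∀ (a : L) (z : Circle), ‖evR z (q1.coeff a)‖ ≤ ‖evR z (q1.coeff 0)‖ := by
    intro a
    refine of_dense zf g1 hg1 _ ?_ ?_
    · exact isClosed_le ((er O).2.2.2 _).norm ((er O).2.2.2 _).norm
    · intro z hz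
      exact le_of_mul_le_mul_left (hcoef z a) (norm_pos_iff.mpr hz)
  -- `q1_0 conj g1` is real and nonnegative
  have hreal : q1 * cst (rsh g1) = sharp q1 * cst g1 := by
    have h1 : sharp (cst d * q1) = cst (rsh d) * sharp q1 := by
      rw [map_mul]
      congr 1
      apply AddMonoidAlgebra.ext
      apply Finsupp.ext
      intro a
      rw [sharp_coeff']
      simp only [cst, AddMonoidAlgebra.coeff_single]
      by_cases ha : a = 0
      · simp [ha]
      · have h0 : ¬ (0 : L) = -a := by
          intro h; exact ha (neg_eq_zero.mp h.symm)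
        rw [Finsupp.single_eq_of_ne (Ne.symm h0), Finsupp.single_eq_of_ne ha, map_zero]
    have h2 : cst (d * rsh d) * (q1 * cst (rsh g1)) = cst (d * rsh d) * (sharp q1 * cst g1) := by
      have h3 := hrq
      rw [e2, h1, e1, map_mul, H71.cst_mul, H71.cst_mul] at h3
      rw [H71.cst_mul]
      calc cst d * cst (rsh d) * (q1 * cst (rsh g1))
          = cst d * q1 * (cst (rsh d) * cst (rsh g1)) := by ring
        _ = _ := h3
        _ = _ := by ring
    have hrd : rsh d ≠ 0 := by
      intro h
      have h5 : ∀ z : Circle, evR z d = 0 := by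
        intro z
        have h6 := erN z d
        rw [h, map_zero] at h6
        exact (map_eq_zero _).mp h6.symm
      have h6 := zf O d hd0
      have h7 : {z : Circle | evR z d = 0} = Set.univ := by
        ext z; simp [h5 z]
      rw [h7] at h6
      have h8 := H49.dense_compl_finite _ h6
      rw [Set.compl_univ] at h8
      have h9 := h8.nonempty
      exact Set.not_nonempty_empty h9
    have h4 : (cst (d * rsh d) : AO O L) ≠ 0 := by
      intro h
      have h5 := congrArg (fun G : AO O L => G.coeff 0) h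
      simp only [cst, AddMonoidAlgebra.coeff_single, Finsupp.single_eq_same,
        AddMonoidAlgebra.coeff_zero, Finsupp.coe_zero, Pi.zero_apply] at h5
      exact (mul_ne_zero hd0 hrd) h5
    exact mul_left_cancel₀ h4 h2
  have hreal0 : ∀ z : Circle, (evR z (q1.coeff 0) * (starRingEnd ℂ) (evR z g1)).im = 0 ∧
      0 ≤ (evR z (q1.coeff 0) * (starRingEnd ℂ) (evR z g1)).re := by
    intro z
    have h1 := congrArg (fun G : AO O L => evR z (G.coeff 0)) hreal
    simp only [mul_comm q1, mul_comm (sharp q1), H71.cst_mul_coeff, sharp_coeff', neg_zero,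
      map_mul, erN] at h1
    constructor
    · rw [← Complex.conj_eq_iff_im, map_mul, Complex.conj_conj, mul_comm, ← h1]; ring
    · by_cases hp : spec z H = 0
      · have h2 : (spec z H).coeff 0 = 0 := by rw [hp]; simp
        rw [spec_coeff, hcoefH, map_mul, erN] at h2
        rw [mul_comm, h2]; simp
      · have h2 := (nn L (spec z H) hp (fun u => hHN z u)).1
        rw [spec_coeff, hcoefH, map_mul, erN] at h2
        rw [mul_comm]; exact h2.le
  -- the claim: `g1` has no zero on the circle
  have hclaim : ∀ z : Circle, evR z g1 ≠ 0 := by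
    intro z0 hz0
    classical
    -- some coefficient of `q1` does not vanish
    have h1 : ∃ a, evR z0 (q1.coeff a) ≠ 0 := by
      by_contra hcon
      push Not at hcon
      obtain ⟨c, hcu, hcd⟩ := ke O z0 (insert g1 (q1.coeff.support.image fun a => q1.coeff a))
        ⟨g1, Finset.mem_insert_self _ _, hg1⟩ (by
          intro r hr
          rcases Finset.mem_insert.mp hr with rfl | hr
          · exact hz0
          · obtain ⟨a, _, rfl⟩ := Finset.mem_image.mp hr
            exact hcon a)
      refine hcu (hc c (hcd _ (Finset.mem_insert_self _ _)) fun a => ?_)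
      by_cases ha : q1.coeff a = 0
      · rw [ha]; exact dvd_zero c
      · exact hcd _ (Finset.mem_insert_of_mem (Finset.mem_image.mpr ⟨a,
          Finsupp.mem_support_iff.mpr ha, rfl⟩))
    obtain ⟨a, ha⟩ := h1
    have h2 : evR z0 (q1.coeff 0) ≠ 0 := by
      intro h
      have := hcoef2 a z0
      rw [h, norm_zero] at this
      exact ha (norm_le_zero_iff.mp this)
    have h20 : q1.coeff 0 ≠ 0 := by
      intro h; rw [h, map_zero] at h2; exact h2 rfl
    obtain ⟨k, b, -, hb⟩ := H70.normalO g1 hg1
    obtain ⟨k', a', -, ha'⟩ := H70.normalO (q1.coeff 0) h20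
    have hzn : (z0 : ℂ) ≠ 0 := Circle.coe_ne_zero z0
    have h3 : (X - C (z0 : ℂ)) ^ 2 ∣ b.map (Coef.emb : O →+* ℂ) := by
      refine db (a'.map Coef.emb) (b.map Coef.emb) (k' - k) z0 (Circle.norm_coe z0) ?_ ?_ ?_
      · intro z hz
        set zc : Circle := ⟨z, mem_sphere_zero_iff_norm.mpr hz⟩ with hzc
        have hzc' : (zc : ℂ) = z := rfl
        have h4 := hreal0 zc
        have h5 : evR zc (q1.coeff 0) * (starRingEnd ℂ) (evR zc g1) =
            (a'.map Coef.emb).eval z * (starRingEnd ℂ) ((b.map Coef.emb).eval z) * z ^ (k' - k) := by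
          rw [ha', hb, H70.evR_T_mul, H70.evR_T_mul, hzc', map_mul, map_zpow₀]
          have h6 : (starRingEnd ℂ) z = z⁻¹ := by
            rw [Complex.inv_def, Complex.normSq_eq_norm_sq, hz]; simp
          have hz0' : z ≠ 0 := by rintro rfl; simp at hz
          rw [h6, inv_zpow', zpow_sub₀ hz0', zpow_neg]
          field_simp
        rw [h5] at h4
        exact h4
      · have h4 := hz0
        rw [hb, H70.evR_T_mul] at h4
        exact (mul_eq_zero.mp h4).resolve_left (zpow_ne_zero _ hzn)
      · intro h4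
        apply h2
        rw [ha', H70.evR_T_mul, h4, mul_zero]
    -- transfer to `v`
    by_cases hU : d * U = 0
    · have hv0 : (toLaurent v : RO O) = 0 := by
        have h5 : (LaurentPolynomial.T m * toLaurent v : RO O) = 0 := by
          rw [← hv, e1]
          calc d * g1 * U = g1 * (d * U) := by ring
            _ = 0 := by rw [hU, mul_zero]
        have h6 := congrArg (fun q : RO O => LaurentPolynomial.T (-m) * q) h5
        simp only [mul_zero, ← mul_assoc, ← LaurentPolynomial.T_add, neg_add_cancel,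
          LaurentPolynomial.T_zero, one_mul] at h6
        exact h6
      have hv1 : v = 0 := by
        apply Polynomial.toLaurent_injective
        rw [hv0, map_zero]
      refine hd z0 (Circle.norm_coe z0) ?_
      rw [hv1, Polynomial.map_zero]
      exact dvd_zero _
    obtain ⟨j, w, -, hw⟩ := H70.normalO (d * U) hU
    have h5 : (LaurentPolynomial.T m * toLaurent v : RO O) =
        LaurentPolynomial.T (k + j) * toLaurent (b * w) := by
      rw [← hv, e1]
      calc d * g1 * U = g1 * (d * U) := by ring
        _ = _ := by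
          rw [hb, hw, LaurentPolynomial.T_add, map_mul]; ring
    -- a common shift
    obtain ⟨r, s, hrs⟩ : ∃ r s : ℕ, (r : ℤ) - m = s - (k + j) := by
      refine ⟨(m - (k + j)).toNat, (-(m - (k + j))).toNat, ?_⟩
      omega
    have h6 : X ^ r * v = X ^ s * (b * w) := by
      apply Polynomial.toLaurent_injective
      rw [map_mul, map_mul, Polynomial.toLaurent_X_pow, Polynomial.toLaurent_X_pow]
      have h7 := congrArg (fun q : RO O => LaurentPolynomial.T ((r : ℤ) - m) * q) h5
      simp only [← mul_assoc, ← LaurentPolynomial.T_add] at h7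
      rw [sub_add_cancel, hrs, sub_add_cancel] at h7
      exact h7
    have h8 : (X - C (z0 : ℂ)) ^ 2 ∣ X ^ r * v.map (Coef.emb : O →+* ℂ) := by
      have h9 := congrArg (Polynomial.map (Coef.emb : O →+* ℂ)) h6
      simp only [Polynomial.map_mul, Polynomial.map_pow, Polynomial.map_X] at h9
      rw [h9]
      exact dvd_mul_of_dvd_right (dvd_mul_of_dvd_left h3 _) _
    have h10 : IsCoprime ((X - C (z0 : ℂ)) ^ 2) (X ^ r) := by
      apply IsCoprime.pow
      have := Polynomial.isCoprime_X_sub_C_of_isUnit_sub (R := ℂ) (a := z0) (b := 0)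
        (by rw [sub_zero]; exact isUnit_iff_ne_zero.mpr hzn)
      rwa [C_0, sub_zero] at this
    exact hd z0 (Circle.norm_coe z0) (h10.dvd_of_dvd_mul_left h8)
  have hunit : IsUnit g1 := m1 O g1 hg1 hM1 hclaim
  obtain ⟨w, hw⟩ := hunit
  refine ⟨cst ((w⁻¹ : (RO O)ˣ) : RO O) * q1, ?_, ?_⟩
  · rw [← mul_assoc, ← H71.cst_mul, e1, mul_assoc, ← hw, Units.mul_inv, mul_one]
    exact e2
  · intro z u
    have h1 : evR z ((w⁻¹ : (RO O)ˣ) : RO O) = (starRingEnd ℂ) (evR z g1) := by
      have h2 := (er O).2.1 z (w : RO O) w.isUnit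
      have h3 : evR z (w : RO O) * evR z ((w⁻¹ : (RO O)ˣ) : RO O) = 1 := by
        rw [← map_mul, Units.mul_inv, map_one]
      have h4 : evR z (w : RO O) * (starRingEnd ℂ) (evR z (w : RO O)) = 1 := by
        rw [Complex.mul_conj, Complex.normSq_eq_norm_sq, h2]; simp
      have h5 : evR z (w : RO O) ≠ 0 := by
        intro h; rw [h, zero_mul] at h3; exact zero_ne_one h3
      rw [← hw]
      exact mul_left_cancel₀ h5 (h3.trans h4.symm)
    rw [ev_cst_mul, h1, ← hevH]
    exact hHN z u

end Main

/-- Row E3_DV. -/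
theorem dv3 (qp : Qp3S) (nn : Nn3S) (ke : KerEvS) (m1 : M1S) (mm : MmulS) (db : Db3S)
    (er : EvRS) (zf : ZfinS) : Dv3S := by
  classical
  intro O _ _ _ _ P L _ _ _ _ _ phi D S i0 eta h c n G l b j e hj q hqc hMc m v hv hd
  have hg0 : c * (G l).coeff 0 ≠ 0 := mul_ne_zero hqc.fd.c0 hqc.sp.u0.ne_zero
  refine dvMain nn ke m1 mm db er zf q (c * (G l).coeff 0)
    (∏ i ∈ Finset.univ.erase l, (G i).coeff 0) hqc.q0 hg0 ?_ hqc.rq ?_ m v ?_ hd
  · rw [(mm O).1 c _ hqc.fd.c0 hqc.sp.u0.ne_zero, hMc, (mm O).2.2 _ hqc.sp.u0, one_mul]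
  · exact qp O P L phi D S i0 eta h c n G l b j e hj q hqc
  · rw [← hv, hqc.fd.v00, mul_assoc, Finset.mul_prod_erase Finset.univ
      (fun i => (G i).coeff 0) (Finset.mem_univ l)]

end Pool.Agent.B5.H20
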